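import Pool.Agent.W601.RP.Stm2

/-!
# Sets of coordinates without infinite antichains are finite unions of chains
-/

set_option autoImplicit false
open scoped Classical

namespace Pool.Agent.W111.RP

open Pool.Agent.W601.RP

/-- Finite unions of sets covered by finitely many chains. -/
theorem finCh_biUnion (s : Finset ℕ) (f : ℕ → Set ℕ) (h : ∀ m ∈ s, FinCh (f m)) :
    FinCh (⋃ m ∈ s, f m) := by
  have h1 : ∀ m, ∃ F : Finset (Set ℕ), m ∈ s → (∀ B ∈ F, Chain B) ∧ f m ⊆ ⋃ B ∈ F, B := by
    intro m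
    by_cases hm : m ∈ s
    · obtain ⟨F, hF⟩ := h m hm
      exact ⟨F, fun _ => hF⟩
    · exact ⟨∅, fun h' => (hm h').elim⟩
  choose F hF using h1
  refine ⟨s.biUnion F, ?_, ?_⟩
  · intro B hB
    obtain ⟨m, hm, hB⟩ := Finset.mem_biUnion.1 hB
    exact (hF m hm).1 B hB
  · intro t ht
    simp only [Set.mem_iUnion] at ht
    obtain ⟨m, hm, ht⟩ := ht
    have h2 := (hF m hm).2 ht
    simp only [Set.mem_iUnion] at h2 ⊢
    obtain ⟨B, hB, ht⟩ := h2
    exact ⟨B, Finset.mem_biUnion.2 ⟨m, hm, hB⟩, ht⟩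

theorem finCh_insert (A : Set ℕ) (m : ℕ) (h : FinCh A) : FinCh (insert m A) := by
  obtain ⟨F, hF1, hF2⟩ := h
  refine ⟨insert {m} F, ?_, ?_⟩
  · intro B hB
    rcases Finset.mem_insert.1 hB with rfl | hB
    · intro t ht u hu htu
      rw [Set.mem_singleton_iff] at ht hu
      exact (htu (ht.trans hu.symm)).elim
    · exact hF1 B hB
  · intro t ht
    simp only [Set.mem_iUnion]
    rcases ht with rfl | ht
    · exact ⟨{t}, Finset.mem_insert_self _ _, rfl⟩
    · have h2 := hF2 ht
      simp only [Set.mem_iUnion] at h2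
      obtain ⟨B, hB, ht⟩ := h2
      exact ⟨B, Finset.mem_insert_of_mem hB, ht⟩

theorem finCh_mono {A B : Set ℕ} (h : A ⊆ B) (hB : FinCh B) : FinCh A := by
  obtain ⟨F, hF1, hF2⟩ := hB
  exact ⟨F, hF1, h.trans hF2⟩

theorem finCh_chain {A : Set ℕ} (h : Chain A) : FinCh A := by
  refine ⟨{A}, ?_, ?_⟩
  · intro B hB
    rw [Finset.mem_singleton] at hB
    rwa [hB]
  · intro t ht
    simp only [Set.mem_iUnion]
    exact ⟨A, Finset.mem_singleton_self _, ht⟩

theorem dich : S_NODE → S_DICH := by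
  rintro ⟨-, -, -, -, htr, hirr, hpred, hfin⟩ S hS
  by_contra hbad
  -- every element of a set has a minimal element below
  have hmin : ∀ (B : Set ℕ) (n t : ℕ), t ∈ B → {u | Lt u t}.ncard ≤ n →
      ∃ m ∈ B, (∀ u ∈ B, ¬ Lt u m) ∧ (m = t ∨ Lt m t) := by
    intro B n
    induction n with
    | zero =>
      intro t ht hn
      refine ⟨t, ht, ?_, Or.inl rfl⟩
      intro u _ hu
      have h1 : {u | Lt u t} = ∅ := (Set.ncard_eq_zero (hfin t)).1 (Nat.le_zero.1 hn)
      exact (h1 ▸ (show u ∈ {u | Lt u t} from hu) : u ∈ (∅ : Set ℕ))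
    | succ n ih =>
      intro t ht hn
      by_cases h : ∀ u ∈ B, ¬ Lt u t
      · exact ⟨t, ht, h, Or.inl rfl⟩
      · push Not at h
        obtain ⟨u, hu, hut⟩ := h
        have h1 : {v | Lt v u}.ncard < {v | Lt v t}.ncard := by
          refine Set.ncard_lt_ncard ⟨fun v hv => htr v u t hv hut, fun hsub => ?_⟩ (hfin t)
          exact hirr u (hsub hut)
        obtain ⟨m, hm1, hm2, hm3⟩ := ih u hu (by omega)
        refine ⟨m, hm1, hm2, Or.inr ?_⟩
        rcases hm3 with rfl | h3
        · exact hut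
        · exact htr m u t h3 hut
  -- a bad set has an element with bad successors
  have hstep : ∀ B : Set ℕ, B ⊆ S → ¬ FinCh B → ∃ m ∈ B, ¬ FinCh {t | t ∈ S ∧ Lt m t} := by
    intro B hBS hB
    by_contra hcon
    push Not at hcon
    apply hB
    have hfinM : {m | m ∈ B ∧ ∀ u ∈ B, ¬ Lt u m}.Finite := by
      by_contra hinf
      obtain ⟨t, ht, u, hu, _, hc⟩ := hS {m | m ∈ B ∧ ∀ u ∈ B, ¬ Lt u m}
        (fun m hm => hBS hm.1) hinf
      rcases hc with hc | hc
      · exact hu.2 t ht.1 hc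
      · exact ht.2 u hu.1 hc
    have h1 := finCh_biUnion hfinM.toFinset (fun m => insert m {t | t ∈ S ∧ Lt m t})
      (fun m hm => finCh_insert _ _ (hcon m (hfinM.mem_toFinset.1 hm).1))
    refine finCh_mono ?_ h1
    intro t ht
    obtain ⟨m, hm1, hm2, hm3⟩ := hmin B _ t ht le_rfl
    simp only [Set.mem_iUnion]
    refine ⟨m, hfinM.mem_toFinset.2 ⟨hm1, hm2⟩, ?_⟩
    rcases hm3 with rfl | h3
    · exact Set.mem_insert _ _
    · exact Set.mem_insert_of_mem _ ⟨hBS ht, h3⟩
  -- an increasing sequence of wide elements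
  obtain ⟨s0, hs0, hw0⟩ := hstep S (subset_refl S) hbad
  have hnext : ∀ s : {s : ℕ // s ∈ S ∧ ¬ FinCh {t | t ∈ S ∧ Lt s t}},
      ∃ s' : {s : ℕ // s ∈ S ∧ ¬ FinCh {t | t ∈ S ∧ Lt s t}}, Lt s.1 s'.1 := by
    rintro ⟨s, hs1, hs2⟩
    obtain ⟨m, hm, hm2⟩ := hstep _ (fun t ht => ht.1) hs2
    exact ⟨⟨m, hm.1, hm2⟩, hm.2⟩
  choose nx hnx using hnext
  set s : ℕ → {s : ℕ // s ∈ S ∧ ¬ FinCh {t | t ∈ S ∧ Lt s t}} :=
    fun n => nx^[n] ⟨s0, hs0, hw0⟩ with hsdef
  have hs1 : ∀ n, Lt (s n).1 (s (n + 1)).1 := by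
    intro n
    simp only [hsdef, Function.iterate_succ_apply']
    exact hnx _
  have hs2 : ∀ n m, n < m → Lt (s n).1 (s m).1 := by
    intro n m hnm
    induction m with
    | zero => omega
    | succ m ih =>
      rcases Nat.lt_succ_iff_lt_or_eq.1 hnm with h | h
      · exact htr _ _ _ (ih h) (hs1 m)
      · rw [h]
        exact hs1 m
  have hsinj : Function.Injective fun n => (s n).1 := by
    intro n m hnm
    rcases lt_trichotomy n m with h | h | h
    · have h1 := hs2 n m h
      simp only at hnm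
      rw [hnm] at h1
      exact (hirr _ h1).elim
    · exact h
    · have h1 := hs2 m n h
      simp only at hnm
      rw [hnm] at h1
      exact (hirr _ h1).elim
  -- the number of elements of the sequence below `t`
  have hex : ∀ t, ∃ n, ¬ Lt (s n).1 t := by
    intro t
    by_contra hcon
    push Not at hcon
    have h1 : (Set.range fun n => (s n).1) ⊆ {u | Lt u t} := by
      rintro _ ⟨n, rfl⟩
      exact hcon n
    exact Set.infinite_range_of_injective hsinj ((hfin t).subset h1)
  set ht : ℕ → ℕ := fun t => Nat.find (hex t) with hht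
  have hht1 : ∀ t i, Lt (s i).1 t ↔ i < ht t := by
    intro t i
    constructor
    · intro h
      by_contra hcon
      have h1 := Nat.find_spec (hex t)
      apply h1
      rcases Nat.lt_or_ge (ht t) i with h2 | h2
      · exact htr _ _ _ (hs2 _ _ h2) h
      · have h3 : ht t = i := by omega
        change Lt (s (ht t)).1 t
        rw [h3]
        exact h
    · intro h
      have h1 := Nat.find_min (hex t) h
      exact not_not.1 h1
  -- the branch
  set b : Set ℕ := {t | t ∈ S ∧ ∃ i, t = (s i).1 ∨ Lt t (s i).1} with hb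
  have hbch : Chain b := by
    rintro t ⟨_, i, hi⟩ u ⟨_, j, hj⟩ htu
    have h1 : Lt t (s (max i j + 1)).1 := by
      rcases hi with rfl | hi
      · exact hs2 _ _ (by omega)
      · exact htr _ _ _ hi (hs2 _ _ (by omega))
    have h2 : Lt u (s (max i j + 1)).1 := by
      rcases hj with rfl | hj
      · exact hs2 _ _ (by omega)
      · exact htr _ _ _ hj (hs2 _ _ (by omega))
    rcases hpred t u _ h1 h2 with h3 | h3 | h3
    · exact (htu h3).elim
    · exact Or.inl h3
    · exact Or.inr h3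
  -- elements off the branch exist arbitrarily high
  have hoff : ∀ K, ∃ t, t ∈ S ∧ t ∉ b ∧ K < ht t := by
    intro K
    by_contra hcon
    push Not at hcon
    apply (s K).2.2
    refine finCh_mono ?_ (finCh_chain hbch)
    rintro t ⟨htS, hKt⟩
    by_contra htb
    exact absurd ((hht1 t K).1 hKt) (not_lt.2 (hcon t htS htb))
  choose g hg1 hg2 hg3 using hoff
  set tt : ℕ → ℕ := fun n => (fun t => g (ht t))^[n] (g 0) with htt
  have htt0 : ∀ n, ∃ K, tt n = g K := by
    intro n
    cases n with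
    | zero => exact ⟨0, rfl⟩
    | succ n =>
      refine ⟨ht (tt n), ?_⟩
      simp only [htt, Function.iterate_succ_apply']
  have httS : ∀ n, tt n ∈ S := fun n => by
    obtain ⟨K, hK⟩ := htt0 n
    rw [hK]
    exact hg1 K
  have httb : ∀ n, tt n ∉ b := fun n => by
    obtain ⟨K, hK⟩ := htt0 n
    rw [hK]
    exact hg2 K
  have htt1 : ∀ n, ht (tt n) < ht (tt (n + 1)) := by
    intro n
    have h1 : tt (n + 1) = g (ht (tt n)) := by
      simp only [htt, Function.iterate_succ_apply']
    rw [h1]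
    exact hg3 _
  have hmono : StrictMono fun n => ht (tt n) := strictMono_nat_of_lt_succ htt1
  have hinj : Function.Injective tt := fun n m hnm => hmono.injective (by
    simp only [hnm])
  obtain ⟨t, ⟨n, rfl⟩, u, ⟨m, rfl⟩, hne, hc⟩ := hS (Set.range tt)
    (by rintro _ ⟨n, rfl⟩; exact httS n) (Set.infinite_range_of_injective hinj)
  have key : ∀ n m, tt n ≠ tt m → ¬ Lt (tt n) (tt m) := by
    intro n m hne hlt
    have h1 : ht (tt n) ≤ ht (tt m) := by
      by_contra hcon
      push Not at hcon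
      have h2 := htr _ _ _ ((hht1 (tt n) (ht (tt m))).2 hcon) hlt
      exact lt_irrefl _ ((hht1 (tt m) (ht (tt m))).1 h2)
    have h2 : ht (tt n) ≠ ht (tt m) := by
      intro h
      have h3 : n = m := hmono.injective h
      exact hne (by rw [h3])
    have h3 : Lt (s (ht (tt n))).1 (tt m) := (hht1 _ _).2 (lt_of_le_of_ne h1 h2)
    rcases hpred _ _ _ hlt h3 with h4 | h4 | h4
    · exact httb n ⟨httS n, _, Or.inl h4⟩
    · exact httb n ⟨httS n, _, Or.inr h4⟩
    · exact lt_irrefl _ ((hht1 _ _).1 h4)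
  rcases hc with hc | hc
  · exact key n m hne hc
  · exact key m n hne.symm hc

end Pool.Agent.W111.RP
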